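import Pool.Agent.J6H25.Canon.GapSums

set_option autoImplicit false

/-!
# Taylor's canonical theorem for consecutive prime gaps at every scale, next to a record gap

Let `f(x) = log x (log₂ x)² log₄ x / (log₃ x)²`, the size of the largest gaps between consecutive
primes that are known to occur up to `x`.  Let `g : ℤ → ℕ` be an ARBITRARY function (a colouring
with infinitely many colours).  For every `H` with `1 ≤ H ≤ c f(x)` there are at least `x^(7/8)`
clusters of `m + 1` consecutive primes up to `x` that follow a gap of size at least `c f(x)`, whose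
gaps `d_1, …, d_m` are between `H` and `C H`, and on whose sums `d_F = ∑_(i ∈ F) d_i`,
`∅ ≠ F ⊆ {1, …, m}`, the function `g` has one of the five canonical forms:

* `g(d_F)` is constant, or `g(d_F) = g(d_G)` exactly when
* `min F = min G`; or * `max F = max G`; or * both; or * `F = G`.

In particular `g` is constant or injective on the gaps `d_1, …, d_m` themselves.  The constants `c`,
`C`, `x₀` depend only on `m` and on the number of functions, when the theorem is applied to several
functions at once.  With `H = c f(x)` all `m + 1` gaps have record size.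

Method.  The Milliken-Taylor theorem for gaps (`Pool.Agent.Y898.MTC.mt_gaps` of the starting files,
helper898) is applied to the equality patterns of `g`; the canonical form is extracted by comparing
block maps (`Pool.Agent.J6H25.Canon.Taylor`).
-/

namespace Pool.Agent.Results.MP_ff81b6_nt.CanonicalSumsOfGaps

open Finset

/-- The record scale `f(x) = log x (log₂ x)² log₄ x / (log₃ x)²` (iterated natural logarithms). -/
noncomputable def f (x : ℝ) : ℝ :=
  Real.log x * (Real.log (Real.log x)) ^ 2 * Real.log (Real.log (Real.log (Real.log x))) /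
    (Real.log (Real.log (Real.log x))) ^ 2

/-- The `i`-th prime, numbered from `p 0 = 2`. -/
noncomputable def p (i : ℕ) : ℕ := Nat.nth Nat.Prime i

/-- The gap after the `i`-th prime. -/
noncomputable def d (i : ℕ) : ℤ := (p (i + 1) : ℤ) - p i

/-- The primes `p_n, …, p_(n+k)` are at most `x`, the `k` gaps between them are at least `H` and at
most `C H`, and the gap before `p_n` is at least `c f(x)`. -/
def Cluster (c C x H : ℝ) (k n : ℕ) : Prop :=
  0 < n ∧ (p (n + k) : ℝ) ≤ x ∧ c * f x ≤ (d (n - 1) : ℝ) ∧
    ∀ i < k, H ≤ (d (n + i) : ℝ) ∧ (d (n + i) : ℝ) ≤ C * H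

/-- The function `h` on the nonempty subsets of `{0, …, m - 1}` has one of the five canonical forms:
constant, determined exactly by the minimum, by the maximum, by the minimum and the maximum, or
injective. -/
def Canonical (m : ℕ) (h : Finset ℕ → ℕ) : Prop :=
  (∀ F G : Finset ℕ, F.Nonempty → G.Nonempty → F ⊆ range m → G ⊆ range m → h F = h G) ∨
  (∀ F G : Finset ℕ, F.Nonempty → G.Nonempty → F ⊆ range m → G ⊆ range m →
    (h F = h G ↔ F.min = G.min)) ∨
  (∀ F G : Finset ℕ, F.Nonempty → G.Nonempty → F ⊆ range m → G ⊆ range m →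
    (h F = h G ↔ F.max = G.max)) ∨
  (∀ F G : Finset ℕ, F.Nonempty → G.Nonempty → F ⊆ range m → G ⊆ range m →
    (h F = h G ↔ F.min = G.min ∧ F.max = G.max)) ∨
  (∀ F G : Finset ℕ, F.Nonempty → G.Nonempty → F ⊆ range m → G ⊆ range m →
    (h F = h G ↔ F = G))

theorem finite_of {x : ℝ} {k : ℕ} {S : Set ℕ} (h : ∀ n ∈ S, (p (n + k) : ℝ) ≤ x) : S.Finite := by
  refine (Set.finite_Iic ⌊x⌋₊).subset ?_
  intro n hn
  refine Nat.le_floor (le_trans ?_ (h n hn))
  have h2 : n + k ≤ Nat.nth Nat.Prime (n + k) :=
    (Nat.nth_strictMono Nat.infinite_setOfPred_prime).le_apply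
  exact_mod_cast (Nat.le_add_right n k).trans h2

/-- **Taylor's canonical theorem for the sums of consecutive prime gaps next to a record gap.**  For
all `m` and `s` there are `c > 0`, `C` and `x₀` such that for all `x ≥ x₀`, all `H` with
`1 ≤ H ≤ c f(x)` and all `s`-tuples of functions `g 0, …, g (s - 1) : ℤ → ℕ` there are at least
`x^(7/8)` blocks `p_n, …, p_(n+m)` of consecutive primes up to `x`, with all `m` gaps between `H` and
`C H` and the gap before `p_n` at least `c f(x)`, such that every `g e` has, on the sums of the gaps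
over the nonempty sets of indices, one of the five canonical forms. -/
theorem result (m s : ℕ) : ∃ c C : ℝ, 0 < c ∧
    ∃ x₀ : ℝ, ∀ x : ℝ, x₀ ≤ x → ∀ H : ℝ, 1 ≤ H → H ≤ c * f x → ∀ g : Fin s → ℤ → ℕ,
    x ^ (7 / 8 : ℝ) ≤ (Set.ncard {n : ℕ | Cluster c C x H m n ∧
      ∀ e : Fin s, Canonical m (fun F => g e (∑ i ∈ F, d (n + i)))} : ℝ) := by
  obtain ⟨c, C, hc, -, h⟩ := Pool.Agent.J6H25.Canon.gap_sums m s
  obtain ⟨x₀, hx₀⟩ := Filter.eventually_atTop.1 h
  refine ⟨c, C, hc, x₀, fun x hx H hH hHc g => (hx₀ x hx H hH hHc g).trans ?_⟩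
  rw [Nat.cast_le]
  refine Set.ncard_le_ncard ?_ (finite_of (k := m) fun n hn => hn.1.2.1)
  rintro n ⟨⟨h1, h2, h3, h4, -⟩, h5⟩
  refine ⟨⟨h1, h2, ?_, fun i hi => ?_⟩, fun e => h5 e⟩
  · unfold d p
    rw [Nat.sub_add_cancel h1]
    push_cast
    exact h3
  · unfold d p
    push_cast
    exact h4 i hi

end Pool.Agent.Results.MP_ff81b6_nt.CanonicalSumsOfGaps
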